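import Pool.Agent.Helper22.RKI.St

/-!
# Project RK, part (i), module CO1: the coincidence
-/

set_option autoImplicit false

namespace Pool.Agent.Helper71.RKI

open Pool.Agent.Helper22.RKI

/-- **CO1**. -/
theorem hCO1 : StCO1 := by
  intro k A _ G _ D v l r e v' r' e' h1 h2
  unfold Fd.Tri at h1 h2
  have hl : D.p l * D.p (-l) = 1 := by rw [← D.p_add, add_neg_cancel, D.p0]
  have e1 : D.p l = D.a * D.p v * D.a * (D.Z ^ e)⁻¹ * (D.p r)⁻¹ * D.a⁻¹ := by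
    rw [h1]; group
  have e2 : D.p (-l) = D.a * D.p v' * D.a * (D.Z ^ e')⁻¹ * (D.p r')⁻¹ * D.a⁻¹ := by
    rw [h2]; group
  have e3 : D.a * D.Z ^ (-e) * D.p (v' - r) * D.a = D.p (r' - v) * D.Z ^ e' := by
    rw [e1, e2] at hl
    have h4 : D.p (v' - r) = (D.p r)⁻¹ * D.p v' := by
      rw [← D.pneg, ← D.p_add, neg_add_eq_sub]
    have h5 : D.p (r' - v) = (D.p v)⁻¹ * D.p r' := by
      rw [← D.pneg, ← D.p_add, neg_add_eq_sub]
    rw [h4, h5, zpow_neg]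
    have h6 : D.a * (D.Z ^ e)⁻¹ * ((D.p r)⁻¹ * D.p v') * D.a =
        (D.p v)⁻¹ * (D.a⁻¹ * (D.a * D.p v * D.a * (D.Z ^ e)⁻¹ * (D.p r)⁻¹ * D.a⁻¹ *
          (D.a * D.p v' * D.a * (D.Z ^ e')⁻¹ * (D.p r')⁻¹ * D.a⁻¹)) * D.a) *
          D.p r' * D.Z ^ e' := by group
    rw [h6, hl]
    group
  have e4 := D.Zp (-e) (v' - r)
  have e5 := D.Za (-e)
  have e6 : D.a * D.Z ^ (-e) * D.p (v' - r) * D.a =
      D.a * D.p ((v' - r) * ((D.c ^ (-e) : Aˣ) : A)) * D.a * D.Z ^ ((k : ℤ) * -e) := by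
    rw [mul_assoc D.a, e4, mul_comm (v' - r)]
    simp only [mul_assoc]
    rw [e5]
  rw [e6] at e3
  have e7 : D.a * D.p ((v' - r) * ((D.c ^ (-e) : Aˣ) : A)) * D.a =
      D.p (r' - v) * D.Z ^ e' * (D.Z ^ ((k : ℤ) * -e))⁻¹ := by
    rw [← e3, mul_inv_cancel_right]
  rw [e7, mul_assoc, ← zpow_neg, ← zpow_add]
  congr 2
  ring

end Pool.Agent.Helper71.RKI
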